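import Pool.Agent.H21.UE.M1

/-! # Sums of units (MP_c80192_nt), module HYP: solutions of almost-unit equations lie in
finitely many hyperplanes -/

open NumberField

namespace Pool.Agent.H21.UE

universe u

/-- the forms `y_j`, `j ≠ c`, in the coordinates `y_1, …, y_n` (`y_0 = -(y_1 + … + y_n)`) -/
def hypB (n : ℕ) (c : Fin (n + 1)) : Matrix (Fin n) (Fin n) ℤ := fun i k =>
  (Fin.cases (-1) (fun j => if j = k then 1 else 0) (c.succAbove i) : ℤ)

theorem hypB_apply {R : Type*} [CommRing R] {n : ℕ} (c : Fin (n + 1)) (y : Fin (n + 1) → R)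
    (hy : ∑ i, y i = 0) (i : Fin n) :
    ∑ k, (hypB n c i k : R) * y k.succ = y (c.succAbove i) := by
  unfold hypB
  rw [Fin.sum_univ_succ] at hy
  rcases Fin.eq_zero_or_eq_succ (c.succAbove i) with h | ⟨j, h⟩
  · rw [h]
    simp only [Fin.cases_zero, Int.cast_neg, Int.cast_one, neg_mul, one_mul]
    rw [Finset.sum_neg_distrib]
    linear_combination -hy
  · rw [h]
    simp

theorem hypB_det {n : ℕ} (c : Fin (n + 1)) : (hypB n c).det ≠ 0 := by
  intro h
  obtain ⟨x, hx0, hx⟩ := Matrix.exists_mulVec_eq_zero_iff.2 h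
  apply hx0
  let y : Fin (n + 1) → ℤ := Fin.cons (-∑ k, x k) x
  have hy : ∑ i, y i = 0 := by
    rw [Fin.sum_univ_succ]; simp [y]
  have h1 : ∀ i, y (c.succAbove i) = 0 := by
    intro i
    rw [← hypB_apply c y hy i]
    have := congrFun hx i
    simpa [Matrix.mulVec, dotProduct, y] using this
  have h2 : y c = 0 := by
    rw [Fin.sum_univ_succAbove _ c] at hy
    simpa [h1] using hy
  have h3 : ∀ j, y j = 0 := by
    intro j
    rcases Fin.eq_self_or_eq_succAbove c j with rfl | ⟨i, rfl⟩
    · exact h2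
    · exact h1 i
  funext k
  have := h3 k.succ
  simpa [y] using this

theorem lf_hypB {L : Type u} [Field L] [NumberField L] {n : ℕ}
    (c : InfinitePlace L → Fin (n + 1)) (y : Fin (n + 1) → L) (hy : ∑ i, y i = 0)
    (v : InfinitePlace L) (i : Fin n) :
    ‖lf (fun v => hypB n (c v)) v i (fun k => y k.succ)‖ = v (y ((c v).succAbove i)) := by
  unfold lf
  have h := hypB_apply (c v) (fun j => v.embedding (y j)) (by rw [← map_sum, hy, map_zero]) i
  rw [h, norm_embedding]

/-- finitely many integral elements with bounded absolute values -/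
theorem finite_bounded (L : Type u) [Field L] [NumberField L] (X : ℝ) :
    {x : L | IsIntegral ℤ x ∧ ∀ v : InfinitePlace L, v x ≤ X}.Finite := by
  refine (Embeddings.finite_of_norm_le L ℂ X).subset ?_
  rintro x ⟨h1, h2⟩
  refine ⟨h1, fun φ => ?_⟩
  have := h2 (InfinitePlace.mk φ)
  rwa [InfinitePlace.apply] at this

theorem hyp_core {L : Type u} [Field L] [NumberField L] {n : ℕ} (hn : 2 ≤ n)
    (z : Fin (n + 1) → L) (hint : ∀ i, IsIntegral ℤ (z i)) (h0 : ∀ i, z i ≠ 0)
    (hsum : ∑ i, z i = 0) (c : InfinitePlace L → Fin (n + 1)) (h lD lA : ℝ) (hD : 0 ≤ lD)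
    (hle : ∀ v : InfinitePlace L, ∀ j, Real.log (v (z j)) ≤ lD + h)
    (hH : ∑ v : InfinitePlace L, (v.mult : ℝ) * Real.log (v (z (c v))) = Module.finrank ℚ L * h)
    (hA : ∀ j, ∑ v : InfinitePlace L, (v.mult : ℝ) * Real.log (v (z j)) ≤ lA)
    (h1 : lD ≤ h) (h2 : 2 * (n + 1) * lA ≤ h) :
    ∃ w : InfinitePlace L → Fin n → ℝ, NW w ∧
      (∀ v i, Real.exp h ^ (-(2 * (Module.finrank ℚ L : ℝ) + 3)) ≤ w v i ∧
        w v i ≤ Real.exp h ^ (2 * (Module.finrank ℚ L : ℝ) + 3)) ∧
      (fun k : Fin n => z k.succ) ∈ Sm (fun v => hypB n (c v)) w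
        (Real.exp h ^ (-(1 / (2 * n : ℝ)))) := by
  classical
  set d : ℝ := (Module.finrank ℚ L : ℝ) with hd
  have hd1 : 1 ≤ d := by
    rw [hd]; exact_mod_cast Nat.one_le_iff_ne_zero.2 (Module.finrank_pos (R := ℚ) (M := L)).ne'
  have hn' : (2 : ℝ) ≤ n := by exact_mod_cast hn
  have hmult : ∑ v : InfinitePlace L, (v.mult : ℝ) = d := by
    rw [hd]; exact_mod_cast InfinitePlace.sum_mult_eq
  have hpos : ∀ (v : InfinitePlace L) j, 0 < v (z j) := fun v j =>
    (InfinitePlace.pos_iff).2 (h0 j)
  have hN0 : ∀ j, 0 ≤ ∑ v : InfinitePlace L, (v.mult : ℝ) * Real.log (v (z j)) := by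
    intro j
    have h3 := Real.log_nonneg (one_le_prod_place (hint j) (h0 j))
    rw [Real.log_prod (fun v _ => (pow_pos (hpos v j) _).ne')] at h3
    simpa [Real.log_pow] using h3
  have hlA : 0 ≤ lA := (hN0 0).trans (hA 0)
  have hh : 0 ≤ h := hD.trans h1
  -- lower bound
  have hlow : ∀ (v : InfinitePlace L) j, -(d * (lD + h)) ≤ Real.log (v (z j)) := by
    intro v j
    have h3 : ∑ v : InfinitePlace L, (v.mult : ℝ) * (lD + h - Real.log (v (z j))) =
        d * (lD + h) - ∑ v : InfinitePlace L, (v.mult : ℝ) * Real.log (v (z j)) := by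
      rw [← hmult, Finset.sum_mul, ← Finset.sum_sub_distrib]
      exact Finset.sum_congr rfl fun v _ => by ring
    have h4 : (v.mult : ℝ) * (lD + h - Real.log (v (z j))) ≤
        ∑ v : InfinitePlace L, (v.mult : ℝ) * (lD + h - Real.log (v (z j))) :=
      Finset.single_le_sum (f := fun v : InfinitePlace L =>
        (v.mult : ℝ) * (lD + h - Real.log (v (z j))))
        (fun v _ => mul_nonneg (Nat.cast_nonneg _) (by linarith [hle v j])) (Finset.mem_univ v)
    have h5 : (1 : ℝ) ≤ v.mult := by exact_mod_cast InfinitePlace.one_le_mult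
    have h6 : lD + h - Real.log (v (z j)) ≤ (v.mult : ℝ) * (lD + h - Real.log (v (z j))) :=
      le_mul_of_one_le_left (by linarith [hle v j]) h5
    have h7 := hN0 j
    linarith
  set S : ℝ := ∑ v : InfinitePlace L, ∑ i : Fin n,
    (v.mult : ℝ) * Real.log (v (z ((c v).succAbove i))) with hS
  have hS' : S = ∑ j, ∑ v : InfinitePlace L, (v.mult : ℝ) * Real.log (v (z j)) - d * h := by
    rw [Finset.sum_comm, ← hH, ← Finset.sum_sub_distrib, hS]
    refine Finset.sum_congr rfl fun v _ => ?_
    rw [Fin.sum_univ_succAbove _ (c v)]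
    ring
  have hS1 : -(d * h) ≤ S := by
    rw [hS']
    have := Finset.sum_nonneg fun j (_ : j ∈ (Finset.univ : Finset (Fin (n + 1)))) => hN0 j
    linarith
  have hS2 : S ≤ (n + 1) * lA - d * h := by
    rw [hS']
    have := Finset.sum_le_sum fun j (_ : j ∈ (Finset.univ : Finset (Fin (n + 1)))) => hA j
    rw [Finset.sum_const, Finset.card_univ, Fintype.card_fin, nsmul_eq_mul] at this
    push_cast at this
    linarith
  set k : ℝ := -S / (n * d) with hk
  have hnd : 0 < (n : ℝ) * d := by positivity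
  have hk1 : k ≤ h / n := by
    rw [hk, div_le_div_iff₀ hnd (by linarith)]
    nlinarith
  have hk2 : h / (2 * n) ≤ k := by
    rw [hk, div_le_div_iff₀ (by linarith) hnd]
    have h3 : 2 * ((n + 1) * lA) ≤ d * h := by nlinarith
    nlinarith
  have hk0 : 0 ≤ k := le_trans (by positivity) hk2
  have hexp : ∀ (v : InfinitePlace L) j, Real.exp (Real.log (v (z j))) = v (z j) := fun v j =>
    Real.exp_log (hpos v j)
  refine ⟨fun v i => Real.exp (k + Real.log (v (z ((c v).succAbove i)))), ⟨fun v i =>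
    Real.exp_pos _, ?_⟩, ?_, ?_, ?_⟩
  · have h3 : ∀ v : InfinitePlace L, ∀ i : Fin n,
        Real.exp (k + Real.log (v (z ((c v).succAbove i)))) ^ v.mult =
        Real.exp ((v.mult : ℝ) * (k + Real.log (v (z ((c v).succAbove i))))) := by
      intro v i
      rw [← Real.exp_nat_mul]
    rw [Finset.prod_congr rfl fun v _ => Finset.prod_congr rfl fun i _ => h3 v i]
    simp_rw [← Real.exp_sum]
    rw [Real.exp_eq_one_iff]
    have h4 : ∑ v : InfinitePlace L, ∑ i : Fin n,
        (v.mult : ℝ) * (k + Real.log (v (z ((c v).succAbove i)))) =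
        (n * d) * k + S := by
      rw [hS, ← hmult, Finset.mul_sum, Finset.sum_mul, ← Finset.sum_add_distrib]
      refine Finset.sum_congr rfl fun v _ => ?_
      simp_rw [mul_add]
      rw [Finset.sum_add_distrib, Finset.sum_const, Finset.card_univ, Fintype.card_fin,
        nsmul_eq_mul]
      ring
    rw [h4, hk]
    field_simp
    ring
  · intro v i
    have h3 := hle v ((c v).succAbove i)
    have h4 := hlow v ((c v).succAbove i)
    have h5 : h / n ≤ h := div_le_self hh (by linarith)
    rw [← Real.exp_mul, ← Real.exp_mul]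
    refine ⟨Real.exp_le_exp.2 ?_, Real.exp_le_exp.2 ?_⟩
    · have h6 : d * (lD + h) ≤ d * (2 * h) := by nlinarith
      nlinarith
    · nlinarith
  · exact fun j => hint _
  · intro v i
    rw [lf_hypB c z hsum]
    rw [← Real.exp_mul, ← Real.exp_add]
    nth_rewrite 1 [← hexp v ((c v).succAbove i)]
    refine Real.exp_le_exp.2 ?_
    have h3 : h * -(1 / (2 * (n : ℝ))) = -(h / (2 * n)) := by ring
    rw [h3]
    linarith

/-- a proper subspace lies in a hyperplane -/
theorem exists_relation {L : Type u} [Field L] {n : ℕ} (V : Submodule L (Fin n → L))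
    (hV : V ≠ ⊤) : ∃ a : Fin n → L, a ≠ 0 ∧ ∀ x ∈ V, ∑ i, a i * x i = 0 := by
  classical
  obtain ⟨f, hf, hle⟩ := Submodule.exists_le_ker_of_lt_top V (lt_top_iff_ne_top.2 hV)
  have hfx : ∀ x, f x = ∑ i, f (Pi.single i 1) * x i := by
    intro x
    conv_lhs => rw [← Finset.univ_sum_single x]
    rw [map_sum]
    refine Finset.sum_congr rfl fun i _ => ?_
    have : (Pi.single i (x i) : Fin n → L) = x i • Pi.single i 1 := by
      rw [← Pi.single_smul, smul_eq_mul, mul_one]
    rw [this, map_smul, smul_eq_mul, mul_comm]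
  refine ⟨fun i => f (Pi.single i 1), ?_, fun x hx => ?_⟩
  · intro h
    apply hf
    refine LinearMap.ext fun x => ?_
    rw [hfx]
    simp only [LinearMap.zero_apply]
    refine Finset.sum_eq_zero fun i _ => ?_
    rw [show f (Pi.single i 1) = 0 from congrFun h i, zero_mul]
  · rw [← hfx]
    exact LinearMap.mem_ker.1 (hle hx)

theorem HYP (hPST : T_PST.{u}) (hUNI : T_UNI.{u}) : T_HYP.{u} := by
  classical
  intro L _ _ n A hn
  obtain ⟨D, hD0, hD⟩ := hUNI L
  have hn1 : 1 ≤ n := by omega
  have hnR : (2 : ℝ) ≤ n := by exact_mod_cast hn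
  choose Q₀ 𝒱 hfin htop hQ using fun c : InfinitePlace L → Fin (n + 1) =>
    hPST L n hn1 (fun v => hypB n (c v)) (2 * (Module.finrank ℚ L : ℝ) + 3) (1 / (2 * n : ℝ))
      (fun v => hypB_det (c v)) (by positivity)
  choose! rel hrel0 hrel using fun V : Submodule L (Fin n → L) => exists_relation V
  -- threshold
  set T : ℝ := |Real.log D| + 2 * (n + 1) * |Real.log A| + ∑ c, |Q₀ c| with hT
  have hQ₀ : ∀ c, Q₀ c ≤ Real.exp T := by
    intro c
    have h1 : |Q₀ c| ≤ ∑ c, |Q₀ c| :=
      Finset.single_le_sum (f := fun c => |Q₀ c|) (fun c _ => abs_nonneg _) (Finset.mem_univ c)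
    have h2 : T ≤ Real.exp T := by linarith [Real.add_one_le_exp T]
    have h3 : ∑ c, |Q₀ c| ≤ T := by
      rw [hT]
      have : 0 ≤ |Real.log D| + 2 * (n + 1) * |Real.log A| := by positivity
      linarith
    linarith [le_abs_self (Q₀ c)]
  obtain ⟨m, rfl⟩ : ∃ m, n = m + 2 := ⟨n - 2, by omega⟩
  -- the small solutions
  let F : Set L := {x : L | IsIntegral ℤ x ∧ ∀ v : InfinitePlace L, v x ≤ D * Real.exp T}
  have hF : F.Finite := finite_bounded L _
  let G : L × L → (Fin (m + 2) → L) := fun p => Fin.cons p.2 (Fin.cons (-p.1) 0)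
  refine ⟨((G '' (F ×ˢ F)) \ {0}) ∪ ⋃ c, rel '' 𝒱 c, ?_, ?_, ?_⟩
  · refine Set.Finite.union (((hF.prod hF).image _).subset Set.sdiff_subset) ?_
    exact Set.finite_iUnion fun c => (hfin c).image _
  · rintro (⟨-, h⟩ | h)
    · exact h rfl
    · obtain ⟨c, hc⟩ := Set.mem_iUnion.1 h
      obtain ⟨V, hV, hV0⟩ := hc
      exact hrel0 V (htop c V hV) hV0
  · intro y hint h0 hA hsum
    -- the place where the maximum is attained
    choose c hc using fun v : InfinitePlace L => Finite.exists_max fun j => v (y j)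
    have hpos : ∀ (v : InfinitePlace L) j, 0 < v (y j) := fun v j =>
      (InfinitePlace.pos_iff).2 (h0 j)
    obtain ⟨u, H, hH0, hHprod, hu⟩ := hD (fun v => v (y (c v))) fun v => hpos v _
    have hu0 : (u : L) ≠ 0 := by
      simp
    have hupos : ∀ v : InfinitePlace L, 0 < v (u : L) := fun v => (InfinitePlace.pos_iff).2 hu0
    set z : Fin (m + 2 + 1) → L := fun j => (u : L) * y j with hz
    have hzint : ∀ i, IsIntegral ℤ (z i) := fun i =>
      (NumberField.RingOfIntegers.isIntegral_coe _).mul (hint i)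
    have hz0 : ∀ i, z i ≠ 0 := fun i => mul_ne_zero hu0 (h0 i)
    have hzsum : ∑ i, z i = 0 := by rw [hz, ← Finset.mul_sum, hsum, mul_zero]
    have hzle : ∀ (v : InfinitePlace L) j, v (z j) ≤ D * H := by
      intro v j
      rw [hz]
      simp only [map_mul]
      exact (mul_le_mul_of_nonneg_left (hc v j) (hupos v).le).trans (hu v).2
    by_cases hHT : H ≤ Real.exp T
    · -- small solutions
      have hzF : ∀ j, z j ∈ F := fun j => ⟨hzint j, fun v =>
        (hzle v j).trans (mul_le_mul_of_nonneg_left hHT hD0.le)⟩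
      refine ⟨G (z (Fin.succ 0), z (Fin.succ 1)), Or.inl ⟨⟨_, ⟨hzF _, hzF _⟩, rfl⟩, ?_⟩, ?_⟩
      · intro h
        have := congrFun h 0
        simp only [G, Fin.cons_zero, Pi.zero_apply] at this
        exact hz0 _ this
      · rw [Fin.sum_univ_succ, Fin.sum_univ_succ]
        simp only [G, Fin.cons_zero, Fin.cons_succ, Pi.zero_apply, zero_mul,
          Finset.sum_const_zero, add_zero, hz]
        have : (Fin.succ (Fin.succ (0 : Fin (m + 1)))) = Fin.succ (1 : Fin (m + 2)) := rfl
        rw [this]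
        ring
    · push Not at hHT
      set h : ℝ := Real.log H with hh
      have hTh : T < h := by
        rw [hh, Real.lt_log_iff_exp_lt hH0]; exact hHT
      have hexph : Real.exp h = H := Real.exp_log hH0
      have hsumc : ∀ x : InfinitePlace L → ℝ, (∀ v, 0 < x v) →
          Real.log (∏ v, x v ^ v.mult) = ∑ v : InfinitePlace L, (v.mult : ℝ) * Real.log (x v) := by
        intro x hx
        rw [Real.log_prod (fun v _ => (pow_pos (hx v) _).ne')]
        simp [Real.log_pow]
      have hulog : ∑ v : InfinitePlace L, (v.mult : ℝ) * Real.log (v (u : L)) = 0 :=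
        NumberField.Units.sum_mult_mul_log u
      have hzlog : ∀ (v : InfinitePlace L) j, Real.log (v (z j)) =
          Real.log (v (u : L)) + Real.log (v (y j)) := by
        intro v j
        rw [hz]
        simp only [map_mul]
        exact Real.log_mul (hupos v).ne' (hpos v j).ne'
      have hA1 : ∀ j, ∑ v : InfinitePlace L, (v.mult : ℝ) * Real.log (v (z j)) ≤
          |Real.log A| := by
        intro j
        simp_rw [hzlog, mul_add]
        rw [Finset.sum_add_distrib, hulog, zero_add, ← hsumc _ (fun v => hpos v j),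
          InfinitePlace.prod_eq_abs_norm]
        have h1 : 0 < |((Algebra.norm ℚ (y j) : ℚ) : ℝ)| := by
          have := one_le_prod_place (hint j) (h0 j)
          rw [InfinitePlace.prod_eq_abs_norm] at this
          push_cast at this
          linarith
        push_cast
        exact (Real.log_le_log h1 (hA j)).trans (le_abs_self _)
      have hH1 : ∑ v : InfinitePlace L, (v.mult : ℝ) * Real.log (v (z (c v))) =
          Module.finrank ℚ L * h := by
        simp_rw [hzlog, mul_add]
        rw [Finset.sum_add_distrib, hulog, zero_add, ← hsumc _ (fun v => hpos v (c v)), ← hHprod,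
          Real.log_pow]
      have hle1 : ∀ v : InfinitePlace L, ∀ j, Real.log (v (z j)) ≤ |Real.log D| + h := by
        intro v j
        have h1 : 0 < v (z j) := (InfinitePlace.pos_iff).2 (hz0 j)
        have h2 := Real.log_le_log h1 (hzle v j)
        rw [Real.log_mul hD0.ne' hH0.ne'] at h2
        linarith [le_abs_self (Real.log D)]
      have hT1 : |Real.log D| ≤ T := by
        rw [hT]
        have h1 : 0 ≤ ∑ c, |Q₀ c| := Finset.sum_nonneg fun c _ => abs_nonneg _
        have h2 : (0 : ℝ) ≤ 2 * (((m + 2 : ℕ) : ℝ) + 1) * |Real.log A| := by positivity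
        linarith
      have hT2 : 2 * (((m + 2 : ℕ) : ℝ) + 1) * |Real.log A| ≤ T := by
        rw [hT]
        have h1 : 0 ≤ ∑ c, |Q₀ c| := Finset.sum_nonneg fun c _ => abs_nonneg _
        linarith [abs_nonneg (Real.log D)]
      obtain ⟨w, hw1, hw2, hw3⟩ := hyp_core hn z hzint hz0 hzsum c h |Real.log D| |Real.log A|
        (abs_nonneg _) hle1 hH1 hA1 (hT1.trans hTh.le) (hT2.trans hTh.le)
      obtain ⟨V, hV, hsub⟩ := hQ c (Real.exp h) ((hQ₀ c).trans (Real.exp_le_exp.2 hTh.le)) w hw1
        hw2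
      refine ⟨rel V, Or.inr (Set.mem_iUnion.2 ⟨c, V, hV, rfl⟩), ?_⟩
      have h3 := hrel V (htop c V hV) _ (hsub hw3)
      have h4 : ∑ i, rel V i * z i.succ = (u : L) * ∑ i, rel V i * y i.succ := by
        rw [Finset.mul_sum]
        refine Finset.sum_congr rfl fun i _ => ?_
        rw [hz]; ring
      rw [h4] at h3
      exact (mul_eq_zero.1 h3).resolve_left hu0

end Pool.Agent.H21.UE
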