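import Pool.Agent.H21.UE.M1

/-! # Sums of units (MP_c80192_nt), module ONLY: if infinitely many integers are sums of `m` units
then there is a good subfield -/

open NumberField IntermediateField

namespace Pool.Agent.H21.UE

universe u

/-- a unit which lies in a subfield with exactly one infinite place is a root of unity -/
theorem torsion_of_mem {K : Type u} [Field K] [NumberField K] (F : IntermediateField ℚ K)
    (hF : Module.finrank ℚ F ≤ 1 ∨ ImagQuad F) (u : (𝓞 K)ˣ) (hu : (u : K) ∈ F) :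
    u ∈ Units.torsion K := by
  classical
  have hcard : Fintype.card (InfinitePlace F) = 1 := by
    have h1 : ∑ v : InfinitePlace F, v.mult = Module.finrank ℚ F := InfinitePlace.sum_mult_eq
    have h2 : 0 < Fintype.card (InfinitePlace F) := Fintype.card_pos
    rcases hF with hF | ⟨hF, hc⟩
    · have h3 : ∑ v : InfinitePlace F, 1 ≤ ∑ v : InfinitePlace F, v.mult :=
        Finset.sum_le_sum fun v _ => InfinitePlace.mult_pos
      rw [Finset.sum_const, Finset.card_univ, smul_eq_mul, mul_one] at h3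
      omega
    · have h3 : ∑ v : InfinitePlace F, 2 = ∑ v : InfinitePlace F, v.mult :=
        Finset.sum_congr rfl fun v _ => ((InfinitePlace.mult_isComplex ⟨v, hc v⟩)).symm
      rw [Finset.sum_const, Finset.card_univ, smul_eq_mul] at h3
      omega
  obtain ⟨v₀, hv₀⟩ := Fintype.card_eq_one_iff.1 hcard
  have hu0 : (u : K) ≠ 0 := by simp
  set x : F := ⟨(u : K), hu⟩ with hx
  have hx0 : x ≠ 0 := by
    intro h
    exact hu0 (congrArg Subtype.val h)
  have hxint : IsIntegral ℤ x := by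
    refine (isIntegral_algebraMap_iff (R := ℤ) (A := F) (B := K)
      (FaithfulSMul.algebraMap_injective F K)).1 ?_
    exact RingOfIntegers.isIntegral_coe (u : 𝓞 K)
  have hxint' : IsIntegral ℤ x⁻¹ := by
    refine (isIntegral_algebraMap_iff (R := ℤ) (A := F) (B := K)
      (FaithfulSMul.algebraMap_injective F K)).1 ?_
    have h1 : algebraMap F K x⁻¹ = ((u⁻¹ : (𝓞 K)ˣ) : K) := by
      rw [map_inv₀]
      have h2 : algebraMap F K x = (u : K) := rfl
      rw [h2]
      refine (eq_inv_of_mul_eq_one_left ?_).symm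
      have h3 : ((u⁻¹ : (𝓞 K)ˣ) : 𝓞 K) * (u : 𝓞 K) = 1 := u.inv_mul
      have h4 := congrArg (algebraMap (𝓞 K) K) h3
      rwa [map_mul, map_one] at h4
    rw [h1]
    exact RingOfIntegers.isIntegral_coe _
  have hprod : ∀ y : F, ∏ v : InfinitePlace F, v y ^ v.mult = v₀ y ^ v₀.mult := by
    intro y
    refine Finset.prod_eq_single v₀ (fun v _ hv => absurd (hv₀ v) hv) (fun h => absurd
      (Finset.mem_univ _) h)
  have h1 := one_le_prod_place hxint hx0
  have h2 := one_le_prod_place hxint' (inv_ne_zero hx0)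
  rw [hprod] at h1 h2
  rw [map_inv₀, inv_pow] at h2
  have hpos : 0 < v₀ x := (InfinitePlace.pos_iff).2 hx0
  have h3 : v₀ x ^ v₀.mult = 1 := by
    refine le_antisymm ?_ h1
    have h4 := (one_le_inv₀ (pow_pos hpos _)).1 h2
    exact h4
  have h5 : v₀ x = 1 := (pow_eq_one_iff_of_nonneg hpos.le InfinitePlace.mult_ne_zero).1 h3
  rw [Units.mem_torsion]
  intro w
  have h6 : w (u : K) = (w.comap (algebraMap F K)) x := rfl
  rw [h6, hv₀ (w.comap (algebraMap F K)), h5]

section

variable {K : Type u} [Field K] [NumberField K] {L : Type u} [Field L] [NumberField L]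
  [Algebra K L]

/-- the elements of `ℚ(w)` and their conjugates -/
theorem conj_mem_range (w : K) (τ : L ≃ₐ[ℚ] L) (w' : K)
    (h : τ (algebraMap K L w) = algebraMap K L w') (x : K) (hx : x ∈ ℚ⟮w⟯) :
    τ (algebraMap K L x) ∈ (algebraMap K L).range := by
  have h1 : IsAlgebraic ℚ w := Algebra.IsAlgebraic.isAlgebraic w
  have h2 : x ∈ (ℚ⟮w⟯).toSubalgebra := hx
  rw [adjoin_simple_toSubalgebra_of_isAlgebraic h1, Algebra.adjoin_singleton_eq_range_aeval] at h2
  obtain ⟨p, rfl⟩ := h2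
  refine ⟨Polynomial.aeval w' p, ?_⟩
  have h3 : algebraMap K L (Polynomial.aeval w' p) = Polynomial.aeval (algebraMap K L w') p := by
    rw [Polynomial.aeval_algebraMap_apply]
  have h4 : algebraMap K L (Polynomial.aeval w p) = Polynomial.aeval (algebraMap K L w) p := by
    rw [Polynomial.aeval_algebraMap_apply]
  rw [h3]
  have h5 : (Polynomial.aeval w).toRingHom p = Polynomial.aeval w p := rfl
  rw [h5, h4, ← h]
  exact (Polynomial.aeval_algHom_apply (τ : L →ₐ[ℚ] L) _ p).symm ▸ rfl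

theorem minpoly_algebraMap' [Normal ℚ L] (x : K) :
    minpoly ℚ (algebraMap K L x) = minpoly ℚ x :=
  minpoly.algebraMap_eq (FaithfulSMul.algebraMap_injective K L) x

theorem splits_of_conj [Normal ℚ L] (x : K)
    (h : ∀ τ : L ≃ₐ[ℚ] L, τ (algebraMap K L x) ∈ (algebraMap K L).range) :
    ((minpoly ℚ x).map (algebraMap ℚ K)).Splits := by
  have h1 : ((minpoly ℚ x).map (algebraMap ℚ L)).Splits := by
    rw [← minpoly_algebraMap' (L := L) x]
    exact Normal.splits inferInstance _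
  have h2 : (((minpoly ℚ x).map (algebraMap ℚ K)).map (algebraMap K L)) =
      (minpoly ℚ x).map (algebraMap ℚ L) := by
    rw [Polynomial.map_map]
    congr 1
    exact Subsingleton.elim _ _
  refine Polynomial.Splits.of_splits_map (algebraMap K L) (h2 ▸ h1) ?_
  rw [h2]
  intro a ha
  have h3 : IsConjRoot ℚ (algebraMap K L x) a := by
    rw [isConjRoot_iff_mem_minpoly_aroots (Algebra.IsIntegral.isIntegral _),
      minpoly_algebraMap']
    exact ha
  obtain ⟨σ, hσ⟩ := isConjRoot_iff_exists_algEquiv.1 h3.symm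
  rw [← hσ]
  exact h σ

theorem good_or_torsion [Normal ℚ L] {m k : ℕ} (hk : k ≤ m) (w : Fin k → (𝓞 K)ˣ)
    (hconj : ∀ τ : L ≃ₐ[ℚ] L, ∀ i, ∃ j, τ (algebraMap K L (w i : K)) = algebraMap K L (w j : K))
    (hno : ∀ F : IntermediateField ℚ K, ¬ Good K m F) (i : Fin k) :
    w i ∈ Units.torsion K := by
  classical
  by_contra hcon
  have h1 : ¬ (Module.finrank ℚ ℚ⟮(w i : K)⟯ ≤ 1 ∨ ImagQuad ℚ⟮(w i : K)⟯) := fun h =>
    hcon (torsion_of_mem _ h (w i) (mem_adjoin_simple_self ℚ _))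
  push Not at h1
  refine hno ℚ⟮(w i : K)⟯ ⟨h1.1, ?_, h1.2, fun x hx => ?_⟩
  · rw [adjoin.finrank (Algebra.IsIntegral.isIntegral _)]
    have h2 : ((minpoly ℚ (w i : K)).map (algebraMap ℚ L)).Splits := by
      rw [← minpoly_algebraMap' (L := L)]
      exact Normal.splits inferInstance _
    have h3 : (minpoly ℚ (w i : K)).Separable := (minpoly.irreducible
      (Algebra.IsIntegral.isIntegral _)).separable
    rw [← Polynomial.card_rootSet_eq_natDegree h3 h2]
    refine le_trans ?_ hk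
    have h4 : ∀ a : (minpoly ℚ (w i : K)).rootSet L, ∃ j : Fin k,
        (a : L) = algebraMap K L (w j : K) := by
      rintro ⟨a, ha⟩
      have h5 : IsConjRoot ℚ (algebraMap K L (w i : K)) a := by
        rw [isConjRoot_iff_mem_minpoly_rootSet (Algebra.IsIntegral.isIntegral _),
          minpoly_algebraMap']
        exact ha
      obtain ⟨σ, hσ⟩ := isConjRoot_iff_exists_algEquiv.1 h5.symm
      obtain ⟨j, hj⟩ := hconj σ i
      exact ⟨j, hσ.symm.trans hj⟩
    choose f hf using h4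
    have h6 : Function.Injective f := by
      intro a b hab
      refine Subtype.ext ?_
      rw [hf a, hf b, hab]
    have := Fintype.card_le_of_injective f h6
    simpa using this
  · refine splits_of_conj (L := L) x fun τ => ?_
    obtain ⟨j, hj⟩ := hconj τ i
    exact conj_mem_range _ τ _ hj x hx

theorem norm_le_one {x : L} (hx0 : x ≠ 0) (h' : IsIntegral ℤ x⁻¹) :
    |((Algebra.norm ℚ x : ℚ) : ℝ)| ≤ 1 := by
  have h1 := one_le_prod_place h' (inv_ne_zero hx0)
  have h2 : ∏ v : InfinitePlace L, v x⁻¹ ^ v.mult = (∏ v : InfinitePlace L, v x ^ v.mult)⁻¹ := by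
    rw [← Finset.prod_inv_distrib]
    exact Finset.prod_congr rfl fun v _ => by rw [map_inv₀, inv_pow]
  have h3 : 0 < ∏ v : InfinitePlace L, v x ^ v.mult :=
    Finset.prod_pos fun v _ => pow_pos ((InfinitePlace.pos_iff).2 hx0) _
  rw [h2] at h1
  have h4 := (one_le_inv₀ h3).1 h1
  rw [InfinitePlace.prod_eq_abs_norm] at h4
  simpa using h4

/-- conjugates of the terms are multiples of the terms -/
theorem exists_conj_ratio (hUEQ : T_UEQ.{u}) (k : ℕ) :
    ∃ R : Set L, R.Finite ∧ ∀ u : Fin k → (𝓞 K)ˣ, ∀ n : ℕ,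
      ((n : ℕ) : 𝓞 K) = ∑ i, (u i : 𝓞 K) →
      (∀ S : Finset (Fin k), S.Nonempty → ∑ i ∈ S, (u i : 𝓞 K) ≠ 0) →
      ∀ (τ : L ≃ₐ[ℚ] L) i, ∃ r ∈ R, ∃ j, τ (algebraMap K L (u i : K)) =
        r * algebraMap K L (u j : K) := by
  classical
  choose R₀ hfin hR₀ using fun I : Finset (Fin k ⊕ Fin k) => hUEQ L I 1
  refine ⟨(fun r => -r) '' ⋃ I, R₀ I, (Set.finite_iUnion fun I => hfin I).image _, ?_⟩
  intro u n hn hS τ i
  have hK : ∀ S : Finset (Fin k), S.Nonempty → ∑ i ∈ S, (u i : K) ≠ 0 := by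
    intro S hSn h
    refine hS S hSn ?_
    apply RingOfIntegers.coe_injective (K := K)
    rw [map_sum, map_zero]
    exact h
  have hnK : (n : K) = ∑ i, (u i : K) := by
    have := congrArg (algebraMap (𝓞 K) K) hn
    rw [map_sum, map_natCast] at this
    exact this
  let z : Fin k ⊕ Fin k → L := Sum.elim (fun i => τ (algebraMap K L (u i : K)))
    (fun j => -algebraMap K L (u j : K))
  have hz0 : ∑ s, z s = 0 := by
    rw [Fintype.sum_sum_type]
    simp only [z, Sum.elim_inl, Sum.elim_inr, Finset.sum_neg_distrib]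
    rw [← map_sum, ← map_sum, ← hnK]
    simp
  have hzne : ∀ s, z s ≠ 0 := by
    rintro (j | j)
    · simp [z]
    · simp [z]
  have hint : ∀ (φ : K →+* L) (x : (𝓞 K)ˣ), IsIntegral ℤ (φ (x : K)) := fun φ x =>
    (RingOfIntegers.isIntegral_coe (x : 𝓞 K)).map (φ.toIntAlgHom)
  have hinv : ∀ (φ : K →+* L) (x : (𝓞 K)ˣ), IsIntegral ℤ (φ (x : K))⁻¹ := by
    intro φ x
    have h1 : (φ (x : K))⁻¹ = φ ((x⁻¹ : (𝓞 K)ˣ) : K) := by
      rw [← map_inv₀]
      congr 1
      refine (eq_inv_of_mul_eq_one_left ?_).symm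
      have h3 : ((x⁻¹ : (𝓞 K)ˣ) : 𝓞 K) * (x : 𝓞 K) = 1 := x.inv_mul
      have h4 := congrArg (algebraMap (𝓞 K) K) h3
      rwa [map_mul, map_one] at h4
    rw [h1]
    exact hint φ _
  have hzint : ∀ s, IsIntegral ℤ (z s) := by
    rintro (j | j)
    · exact hint ((τ : L →+* L).comp (algebraMap K L)) (u j)
    · exact (hint (algebraMap K L) (u j)).neg
  have hzinv : ∀ s, IsIntegral ℤ (z s)⁻¹ := by
    rintro (j | j)
    · exact hinv ((τ : L →+* L).comp (algebraMap K L)) (u j)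
    · have h1 : (z (Sum.inr j))⁻¹ = -(algebraMap K L (u j : K))⁻¹ := by
        simp only [z, Sum.elim_inr, inv_neg]
      rw [h1]
      exact (hinv (algebraMap K L) (u j)).neg
  have hznorm : ∀ s, |((Algebra.norm ℚ (z s) : ℚ) : ℝ)| ≤ 1 := fun s =>
    norm_le_one (hzne s) (hzinv s)
  -- the minimal zero sum containing the term number `i`
  obtain ⟨I, hI, hImin⟩ := Finset.exists_min_image
    ((Finset.univ : Finset (Finset (Fin k ⊕ Fin k))).filter
      fun I => Sum.inl i ∈ I ∧ ∑ s ∈ I, z s = 0) Finset.card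
    ⟨Finset.univ, by simp only [Finset.mem_filter, Finset.mem_univ, true_and]; exact hz0⟩
  simp only [Finset.mem_filter, Finset.mem_univ, true_and] at hI hImin
  obtain ⟨hiI, hI0⟩ := hI
  have hmin : ∀ S ⊆ I, S.Nonempty → S ≠ I → ∑ s ∈ S, z s ≠ 0 := by
    intro S hSI hSn hne h
    have hlt : S.card < I.card := Finset.card_lt_card (Finset.ssubset_iff_subset_ne.2 ⟨hSI, hne⟩)
    by_cases hiS : Sum.inl i ∈ S
    · have := hImin S ⟨hiS, h⟩
      omega
    · have h1 : ∑ s ∈ I \ S, z s = 0 := by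
        have := Finset.sum_sdiff (f := z) hSI
        rw [h, hI0, add_zero] at this
        exact this
      have h2 := hImin (I \ S) ⟨Finset.mem_sdiff.2 ⟨hiI, hiS⟩, h1⟩
      have h3 := Finset.card_sdiff_add_card_eq_card hSI
      have h4 := hSn.card_pos
      omega
  have hj : ∃ j, Sum.inr j ∈ I := by
    by_contra hcon
    push Not at hcon
    set S : Finset (Fin k) := Finset.univ.filter fun j => Sum.inl j ∈ I with hSdef
    have hIS : I = S.map Function.Embedding.inl := by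
      ext s
      rcases s with s | s
      · simp [hSdef]
      · simp [hcon s]
    have h1 := hI0
    rw [hIS, Finset.sum_map] at h1
    simp only [z, Function.Embedding.inl_apply, Sum.elim_inl] at h1
    rw [← map_sum, ← map_sum] at h1
    have h2 : ∑ j ∈ S, (u j : K) = 0 := by
      have h3 := (map_eq_zero_iff τ τ.injective).1 h1
      exact (map_eq_zero_iff _ (FaithfulSMul.algebraMap_injective K L)).1 h3
    exact hK S ⟨i, by simp [hSdef, hiI]⟩ h2
  obtain ⟨j, hj⟩ := hj
  have hmem := hR₀ I (fun s => z s) (fun s => hzint s) (fun s => hzne s) (fun s => hznorm s)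
    (by rw [Finset.sum_coe_sort I z]; exact hI0) (by
      intro S hSn hSu h
      have h1 : ∑ s ∈ S, z s = ∑ s ∈ S.map (Function.Embedding.subtype _), z s := by
        rw [Finset.sum_map]; rfl
      rw [h1] at h
      refine hmin _ ?_ hSn.map ?_ h
      · intro s hs
        obtain ⟨t, -, rfl⟩ := Finset.mem_map.1 hs
        exact t.2
      · intro h2
        apply hSu
        ext t
        simp only [Finset.mem_univ, iff_true]
        have h3 : (t : Fin k ⊕ Fin k) ∈ S.map (Function.Embedding.subtype _) := by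
          rw [h2]; exact t.2
        obtain ⟨t', ht', htt⟩ := Finset.mem_map.1 h3
        have : t' = t := Subtype.ext htt
        rwa [← this]) ⟨Sum.inl i, hiI⟩ ⟨Sum.inr j, hj⟩
  refine ⟨_, ⟨_, Set.mem_iUnion.2 ⟨I, hmem⟩, rfl⟩, j, ?_⟩
  have hne : algebraMap K L (u j : K) ≠ 0 := by simp
  simp only [z, Sum.elim_inl, Sum.elim_inr]
  field_simp

/-- the sets of integers with given data are finite -/
theorem finite_data [Normal ℚ L] {m k : ℕ} (hk : k ≤ m)
    (hno : ∀ F : IntermediateField ℚ K, ¬ Good K m F)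
    (δ : (L ≃ₐ[ℚ] L) → Fin k → L × Fin k) :
    {n : ℕ | ∃ u : Fin k → (𝓞 K)ˣ, (n : 𝓞 K) = ∑ i, (u i : 𝓞 K) ∧
      ∀ τ i, τ (algebraMap K L (u i : K)) = (δ τ i).1 * algebraMap K L (u (δ τ i).2 : K)}.Finite := by
  classical
  rcases Set.eq_empty_or_nonempty {n : ℕ | ∃ u : Fin k → (𝓞 K)ˣ, (n : 𝓞 K) = ∑ i, (u i : 𝓞 K) ∧
      ∀ τ i, τ (algebraMap K L (u i : K)) = (δ τ i).1 * algebraMap K L (u (δ τ i).2 : K)}
    with h | ⟨n₀, u₀, -, hu₀⟩
  · rw [h]; exact Set.finite_empty
  have hfin : (Set.range fun t : Fin k → Units.torsion K =>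
      ∑ i, (((t i : (𝓞 K)ˣ) * u₀ i : (𝓞 K)ˣ) : 𝓞 K)).Finite := Set.finite_range _
  refine (hfin.preimage (f := fun n : ℕ => (n : 𝓞 K)) (Nat.cast_injective.injOn)).subset ?_
  rintro n ⟨u, hn, hu⟩
  have htor : ∀ i, u i * (u₀ i)⁻¹ ∈ Units.torsion K := by
    refine good_or_torsion (L := L) hk (fun i => u i * (u₀ i)⁻¹) (fun τ i => ⟨(δ τ i).2, ?_⟩) hno
    have h1 : ∀ i, (((u i * (u₀ i)⁻¹ : (𝓞 K)ˣ) : 𝓞 K) : K) = (u i : K) / (u₀ i : K) := by
      intro i
      rw [eq_div_iff (by simp)]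
      have h3 : ((u i * (u₀ i)⁻¹ : (𝓞 K)ˣ) : 𝓞 K) * (u₀ i : 𝓞 K) = u i := by
        rw [← Units.val_mul]
        simp
      have h4 := congrArg (algebraMap (𝓞 K) K) h3
      rwa [map_mul] at h4
    simp only [h1, map_div₀]
    rw [hu, hu₀]
    have h2 : (δ τ i).1 ≠ 0 := by
      intro h
      have h3 := hu τ i
      rw [h, zero_mul] at h3
      simp at h3
    rw [mul_div_mul_left _ _ h2]
  refine ⟨fun i => ⟨_, htor i⟩, ?_⟩
  simp only [inv_mul_cancel_right]
  exact hn.symm

end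

theorem ONLY (hUEQ : T_UEQ.{u}) : T_ONLY.{u} := by
  classical
  intro K _ _ m hinf
  by_contra hno
  push Not at hno
  apply hinf
  have halg : Algebra.IsAlgebraic ℚ (AlgebraicClosure K) :=
    Algebra.IsAlgebraic.trans ℚ K (AlgebraicClosure K)
  have hacl : IsAlgClosure ℚ (AlgebraicClosure K) := ⟨inferInstance, halg⟩
  have hnorm : Normal ℚ (AlgebraicClosure K) := IsAlgClosure.normal ℚ (AlgebraicClosure K)
  let L := normalClosure ℚ K (AlgebraicClosure K)
  have hnL : Normal ℚ L := normalClosure.normal ℚ K (AlgebraicClosure K)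
  have : NumberField L := ⟨⟩
  choose R hR hconj using fun k : ℕ => exists_conj_ratio (K := K) (L := L) hUEQ k
  have hRf : ∀ k, Finite (R k) := fun k => (hR k).to_subtype
  have h1 : ∀ k, k ≤ m → {n : ℕ | ∃ u : Fin k → (𝓞 K)ˣ, ((n : 𝓞 K) = ∑ i, (u i : 𝓞 K)) ∧
      ∀ S : Finset (Fin k), S.Nonempty → ∑ i ∈ S, (u i : 𝓞 K) ≠ 0}.Finite := by
    intro k hk
    refine (Set.finite_iUnion fun δ : (L ≃ₐ[ℚ] L) → Fin k → R k × Fin k =>
      finite_data (L := L) hk hno (fun τ i => ((δ τ i).1, (δ τ i).2))).subset ?_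
    rintro n ⟨u, hn, hS⟩
    choose r hr j hj using hconj k u n hn hS
    exact Set.mem_iUnion.2 ⟨fun τ i => (⟨r τ i, hr τ i⟩, j τ i), u, hn, fun τ i => hj τ i⟩
  refine ((Set.finite_Iic m).biUnion fun k hk => h1 k hk).subset ?_
  rintro n ⟨hn0, hn⟩
  have hex : ∃ k, ∃ u : Fin k → (𝓞 K)ˣ, (n : 𝓞 K) = ∑ i, (u i : 𝓞 K) := ⟨m, hn⟩
  have hle : Nat.find hex ≤ m := Nat.find_min' hex hn
  obtain ⟨u, hu⟩ := Nat.find_spec hex
  refine Set.mem_biUnion (x := Nat.find hex) hle ⟨u, hu, fun S hSn hS0 => ?_⟩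
  have hcard : Sᶜ.card < Nat.find hex := by
    have h2 : S.card + Sᶜ.card = Nat.find hex := by
      rw [Finset.card_add_card_compl, Fintype.card_fin]
    have h3 := hSn.card_pos
    omega
  refine Nat.find_min hex hcard ⟨fun i => u (Sᶜ.equivFin.symm i), ?_⟩
  refine hu.trans ?_
  rw [← Finset.sum_add_sum_compl S, hS0, zero_add]
  rw [← Finset.sum_coe_sort Sᶜ (fun i => (u i : 𝓞 K))]
  exact (Equiv.sum_comp (Sᶜ.equivFin.symm) (fun i : (Sᶜ : Finset _) => (u i : 𝓞 K))).symm

end Pool.Agent.H21.UE
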