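import Pool.Agent.H21.UE.Defs

/-! # Sums of units (MP_c80192_nt), module UEQ: finiteness for almost-unit equations -/

open NumberField

namespace Pool.Agent.H21.UE

universe u

set_option linter.unusedSectionVars false

section

variable {L : Type u} [Field L] [NumberField L]

/-- the nondegenerate solutions of the almost-unit equation -/
def Fam (L : Type u) [Field L] [NumberField L] (κ : Type) [Fintype κ] (A : ℝ) : Set (κ → L) :=
  {y | (∀ i, IsIntegral ℤ (y i)) ∧ (∀ i, y i ≠ 0) ∧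
    (∀ i, |((Algebra.norm ℚ (y i) : ℚ) : ℝ)| ≤ A) ∧ ∑ i, y i = 0 ∧
    (∀ S : Finset κ, S.Nonempty → S ≠ Finset.univ → ∑ i ∈ S, y i ≠ 0)}

/-- all the ratios lie in a finite set -/
def FinRat {κ : Type} (Y : Set (κ → L)) : Prop :=
  ∃ R : Set L, R.Finite ∧ ∀ y ∈ Y, ∀ i j, y i / y j ∈ R

theorem FinRat.mono {κ : Type} {Y Z : Set (κ → L)} (h : FinRat Z) (hYZ : Y ⊆ Z) : FinRat Y :=
  let ⟨R, hR, h⟩ := h
  ⟨R, hR, fun y hy => h y (hYZ hy)⟩

theorem finRat_biUnion {κ : Type} {α : Type*} {s : Set α} (hs : s.Finite)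
    {Y : α → Set (κ → L)} (h : ∀ a ∈ s, FinRat (Y a)) : FinRat (⋃ a ∈ s, Y a) := by
  choose! R hR hY using h
  refine ⟨⋃ a ∈ s, R a, hs.biUnion hR, fun y hy i j => ?_⟩
  simp only [Set.mem_iUnion] at hy ⊢
  obtain ⟨a, ha, hy⟩ := hy
  exact ⟨a, ha, hY a ha y hy i j⟩

/-- ratios of `y` from those of `e * y` -/
theorem FinRat.scale {κ : Type} [Finite κ] {Y : Set (κ → L)} (e : κ → L) (he : ∀ i, e i ≠ 0)
    (h : FinRat {z | ∃ y ∈ Y, z = fun i => e i * y i}) : FinRat Y := by
  obtain ⟨R, hR, h⟩ := h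
  refine ⟨⋃ p : κ × κ, (fun r => e p.2 / e p.1 * r) '' R, Set.finite_iUnion fun p => hR.image _,
    fun y hy i j => ?_⟩
  refine Set.mem_iUnion.2 ⟨(i, j), _, h _ ⟨y, hy, rfl⟩ i j, ?_⟩
  have h1 := he i
  have h2 := he j
  simp only
  rcases eq_or_ne (y j) 0 with h3 | h3
  · simp [h3]
  · field_simp

theorem exists_multiple {κ : Type} [Fintype κ] (a : κ → L) :
    ∃ d : ℤ, d ≠ 0 ∧ ∀ i, IsIntegral ℤ ((d : L) * a i) := by
  classical
  have : Algebra.IsAlgebraic ℤ L :=
    (IsFractionRing.comap_isAlgebraic_iff (A := ℤ) (K := ℚ) (C := L)).2 inferInstance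
  obtain ⟨d, hd, h⟩ := Algebra.IsAlgebraic.exists_integral_multiples ℤ
    (Finset.univ.image a)
  refine ⟨d, hd, fun i => ?_⟩
  have := h (a i) (Finset.mem_image_of_mem _ (Finset.mem_univ _))
  rwa [zsmul_eq_mul] at this

/-- scaling keeps the family -/
theorem norm_scale {κ : Type} [Fintype κ] (e : κ → L) (A : ℝ) :
    ∃ A' : ℝ, ∀ i (x : L), |((Algebra.norm ℚ x : ℚ) : ℝ)| ≤ A →
      |((Algebra.norm ℚ (e i * x) : ℚ) : ℝ)| ≤ A' := by
  refine ⟨∑ i, |((Algebra.norm ℚ (e i) : ℚ) : ℝ)| * |A|, fun i x hx => ?_⟩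
  have h1 : |((Algebra.norm ℚ (e i * x) : ℚ) : ℝ)| =
      |((Algebra.norm ℚ (e i) : ℚ) : ℝ)| * |((Algebra.norm ℚ x : ℚ) : ℝ)| := by
    rw [map_mul]; push_cast; rw [abs_mul]
  rw [h1]
  refine (mul_le_mul_of_nonneg_left (hx.trans (le_abs_self A)) (abs_nonneg _)).trans ?_
  exact Finset.single_le_sum (f := fun i => |((Algebra.norm ℚ (e i) : ℚ) : ℝ)| * |A|)
    (fun i _ => by positivity) (Finset.mem_univ i)

/-- a zero sum contains a minimal zero sum -/
theorem exists_minimal_zero {κ : Type} (z : κ → L) (I₀ : Finset κ) (hI : I₀.Nonempty)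
    (h0 : ∑ i ∈ I₀, z i = 0) : ∃ I ⊆ I₀, I.Nonempty ∧ ∑ i ∈ I, z i = 0 ∧
      ∀ S ⊆ I, S.Nonempty → S ≠ I → ∑ i ∈ S, z i ≠ 0 := by
  classical
  induction' hk : I₀.card using Nat.strong_induction_on with k ih generalizing I₀
  by_cases h : ∀ S ⊆ I₀, S.Nonempty → S ≠ I₀ → ∑ i ∈ S, z i ≠ 0
  · exact ⟨I₀, subset_rfl, hI, h0, h⟩
  · push Not at h
    obtain ⟨S, hS, hSn, hne, hS0⟩ := h
    have hlt : S.card < k := by
      rw [← hk]
      exact Finset.card_lt_card (Finset.ssubset_iff_subset_ne.2 ⟨hS, hne⟩)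
    obtain ⟨I, h1, h2⟩ := ih _ hlt S hSn hS0 rfl
    exact ⟨I, h1.trans hS, h2⟩

/-- the statement for index types of cardinality `k` -/
def UEk (L : Type u) [Field L] [NumberField L] (k : ℕ) : Prop :=
  ∀ (κ : Type) [Fintype κ], Fintype.card κ = k → ∀ A : ℝ, FinRat (Fam L κ A)

/-- step 1 for one relation and one subset -/
theorem ueq_step1_aux {n k : ℕ} (A : ℝ) (hk : n < k) (ih : ∀ m, m < k → UEk L m)
    (a : Fin n → L) (I : Finset (Fin n)) (ha : ∀ i ∈ I, a i ≠ 0) :
    ∃ R : Set L, R.Finite ∧ ∀ y ∈ Fam L (Fin (n + 1)) A, ∑ i ∈ I, a i * y i.succ = 0 →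
      (∀ S ⊆ I, S.Nonempty → S ≠ I → ∑ i ∈ S, a i * y i.succ ≠ 0) →
      ∀ i ∈ I, ∀ j ∈ I, y i.succ / y j.succ ∈ R := by
  classical
  obtain ⟨d, hd0, hd⟩ := exists_multiple a
  have hd0' : (d : L) ≠ 0 := by exact_mod_cast hd0
  obtain ⟨A', hA'⟩ := norm_scale (fun i => (d : L) * a i) A
  have hcard : Fintype.card I < k := by
    rw [Fintype.card_coe]
    exact (Finset.card_le_univ I).trans_lt (by simpa using hk)
  have h1 : FinRat {x : I → L | ∃ y ∈ Fam L (Fin (n + 1)) A, (∑ i ∈ I, a i * y i.succ = 0 ∧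
      (∀ S ⊆ I, S.Nonempty → S ≠ I → ∑ i ∈ S, a i * y i.succ ≠ 0)) ∧
      x = fun i : I => y i.1.succ} := by
    refine FinRat.scale (fun i : I => (d : L) * a i.1) (fun i => mul_ne_zero hd0' (ha _ i.2)) ?_
    refine (ih _ hcard I rfl A').mono ?_
    rintro z ⟨x, ⟨y, hy, ⟨h0, hmin⟩, rfl⟩, rfl⟩
    have hsum : ∀ S : Finset I, ∑ i ∈ S, (d : L) * a i.1 * y i.1.succ =
        (d : L) * ∑ i ∈ S.map (Function.Embedding.subtype _), a i * y i.succ := by
      intro S
      rw [Finset.sum_map, Finset.mul_sum]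
      exact Finset.sum_congr rfl fun i _ => by simp [mul_assoc]
    refine ⟨fun i => (hd _).mul (hy.1 _), fun i => mul_ne_zero (mul_ne_zero hd0' (ha _ i.2))
      (hy.2.1 _), fun i => hA' _ _ (hy.2.2.1 _), ?_, fun S hS hSu => ?_⟩
    · rw [hsum]
      have : (Finset.univ : Finset I).map (Function.Embedding.subtype _) = I := by
        ext i; simp
      rw [this, h0, mul_zero]
    · rw [hsum]
      refine mul_ne_zero hd0' (hmin _ ?_ ?_ ?_)
      · intro i hi
        obtain ⟨j, -, rfl⟩ := Finset.mem_map.1 hi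
        exact j.2
      · exact hS.map
      · intro h
        apply hSu
        ext i
        simp only [Finset.mem_univ, iff_true]
        have : (i : Fin n) ∈ S.map (Function.Embedding.subtype _) := by rw [h]; exact i.2
        obtain ⟨j, hj, hji⟩ := Finset.mem_map.1 this
        have : j = i := Subtype.ext hji
        rwa [← this]
  obtain ⟨R, hR, h1⟩ := h1
  exact ⟨R, hR, fun y hy h0 hmin i hi j hj => h1 _ ⟨y, hy, ⟨h0, hmin⟩, rfl⟩ ⟨i, hi⟩ ⟨j, hj⟩⟩

/-- step 1: two of the terms have a ratio in a finite set -/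
theorem ueq_step1 (hHYP : T_HYP.{u}) {n k : ℕ} (hn : 2 ≤ n) (A : ℝ) (hk : n < k)
    (ih : ∀ m, m < k → UEk L m) :
    ∃ R : Set L, R.Finite ∧ ∀ y ∈ Fam L (Fin (n + 1)) A, ∃ i j, i ≠ j ∧ y i / y j ∈ R := by
  classical
  obtain ⟨𝒜, hfin, h0, hA⟩ := hHYP L n A hn
  have h1 : ∀ (a : Fin n → L) (I : Finset (Fin n)), ∃ R : Set L, R.Finite ∧
      ((∀ i ∈ I, a i ≠ 0) → ∀ y ∈ Fam L (Fin (n + 1)) A, ∑ i ∈ I, a i * y i.succ = 0 →
      (∀ S ⊆ I, S.Nonempty → S ≠ I → ∑ i ∈ S, a i * y i.succ ≠ 0) →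
      ∀ i ∈ I, ∀ j ∈ I, y i.succ / y j.succ ∈ R) := by
    intro a I
    by_cases ha : ∀ i ∈ I, a i ≠ 0
    · obtain ⟨R, hR, h⟩ := ueq_step1_aux A hk ih a I ha
      exact ⟨R, hR, fun _ => h⟩
    · exact ⟨∅, Set.finite_empty, fun h => absurd h ha⟩
  choose R hR hRy using h1
  refine ⟨⋃ a ∈ 𝒜, ⋃ I, R a I, hfin.biUnion fun a _ => Set.finite_iUnion fun I => hR a I,
    fun y hy => ?_⟩
  obtain ⟨a, ha, hay⟩ := hA y hy.1 hy.2.1 hy.2.2.1 hy.2.2.2.1
  have ha0 : a ≠ 0 := fun h => h0 (h ▸ ha)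
  set I₀ : Finset (Fin n) := Finset.univ.filter fun i => a i ≠ 0 with hI₀
  have hI₀n : I₀.Nonempty := by
    by_contra h
    rw [Finset.not_nonempty_iff_eq_empty] at h
    apply ha0
    funext i
    by_contra hi
    have : i ∈ I₀ := Finset.mem_filter.2 ⟨Finset.mem_univ _, hi⟩
    rw [h] at this
    exact absurd this (Finset.notMem_empty _)
  have hI₀s : ∑ i ∈ I₀, a i * y i.succ = 0 := by
    rw [← hay, hI₀, Finset.sum_filter]
    refine Finset.sum_congr rfl fun i _ => ?_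
    split_ifs with h
    · rfl
    · push Not at h; rw [h, zero_mul]
  obtain ⟨I, hI, hIn, hIs, hImin⟩ := exists_minimal_zero (fun i => a i * y i.succ) I₀ hI₀n hI₀s
  have hIa : ∀ i ∈ I, a i ≠ 0 := fun i hi => (Finset.mem_filter.1 (hI hi)).2
  have hcard : 1 < I.card := by
    by_contra hc
    have h1 : I.card = 1 := by
      have := Finset.card_pos.2 hIn
      omega
    obtain ⟨i, rfl⟩ := Finset.card_eq_one.1 h1
    rw [Finset.sum_singleton] at hIs
    exact (mul_ne_zero (hIa i (Finset.mem_singleton_self _)) (hy.2.1 _)) hIs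
  obtain ⟨i, hi, j, hj, hij⟩ := Finset.one_lt_card.1 hcard
  refine ⟨i.succ, j.succ, fun h => hij (Fin.succ_injective _ h), ?_⟩
  simp only [Set.mem_iUnion]
  exact ⟨a, ha, I, hRy a I hIa y hy hIs hImin i hi j hj⟩

/-- step 2: solutions in which two terms have a given ratio -/
theorem ueq_step2 {κ : Type} [Fintype κ] {k : ℕ} (hk : Fintype.card κ = k + 1) (hk2 : 2 ≤ k)
    (A : ℝ) (ih : UEk L k) (i₀ j₀ : κ) (hij : i₀ ≠ j₀) (ρ : L) :
    FinRat {y | y ∈ Fam L κ A ∧ y i₀ / y j₀ = ρ} := by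
  classical
  by_cases hρ : ρ = -1
  · refine ⟨∅, Set.finite_empty, fun y hy => ?_⟩
    exfalso
    obtain ⟨hy, hr⟩ := hy
    have hj := hy.2.1 j₀
    rw [hρ, div_eq_iff hj] at hr
    refine hy.2.2.2.2 {i₀, j₀} ⟨i₀, by simp⟩ ?_ ?_
    · intro h
      have h2 := congrArg Finset.card h
      rw [Finset.card_univ, hk, Finset.card_pair hij] at h2
      omega
    · rw [Finset.sum_pair hij, hr]; ring
  · obtain ⟨d, hd0, hd⟩ := exists_multiple (fun _ : Unit => ρ)
    have hd0' : (d : L) ≠ 0 := by exact_mod_cast hd0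
    have hdρ : (d : L) + d * ρ ≠ 0 := by
      intro h
      have : (d : L) * (1 + ρ) = 0 := by linear_combination h
      rcases mul_eq_zero.1 this with h | h
      · exact hd0' h
      · exact hρ (by linear_combination h)
    -- the family without `i₀`
    let e : {l : κ // l ≠ i₀} → L := fun l => if l.1 = j₀ then (d : L) + d * ρ else d
    have he0 : ∀ l, e l ≠ 0 := by
      intro l
      simp only [e]
      split_ifs
      · exact hdρ
      · exact hd0'
    have heint : ∀ l, IsIntegral ℤ (e l) := by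
      intro l
      have h1 : IsIntegral ℤ ((d : ℤ) : L) := isIntegral_algebraMap
      simp only [e]
      split_ifs
      · exact h1.add (hd ())
      · exact h1
    obtain ⟨A', hA'⟩ := norm_scale e A
    have hcard : Fintype.card {l : κ // l ≠ i₀} = k := by
      rw [Fintype.card_subtype_compl, hk]
      simp
    have h1 : FinRat {x : {l : κ // l ≠ i₀} → L | ∃ y, (y ∈ Fam L κ A ∧ y i₀ / y j₀ = ρ) ∧
        x = fun l => y l.1} := by
      refine FinRat.scale e he0 ((ih _ hcard A').mono ?_)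
      rintro z ⟨x, ⟨y, ⟨hy, hr⟩, rfl⟩, rfl⟩
      have hj := hy.2.1 j₀
      rw [div_eq_iff hj] at hr
      -- sums
      have hsum1 : ∀ S : Finset {l : κ // l ≠ i₀}, (⟨j₀, hij.symm⟩ : {l : κ // l ≠ i₀}) ∉ S →
          ∑ l ∈ S, e l * y l.1 = (d : L) * ∑ l ∈ S.map (Function.Embedding.subtype _), y l := by
        intro S hS
        rw [Finset.sum_map, Finset.mul_sum]
        refine Finset.sum_congr rfl fun l hl => ?_
        have h2 : l.1 ≠ j₀ := by
          intro h
          apply hS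
          have : l = ⟨j₀, hij.symm⟩ := Subtype.ext h
          rwa [← this]
        simp [e, h2]
      have hsum2 : ∀ S : Finset {l : κ // l ≠ i₀}, (⟨j₀, hij.symm⟩ : {l : κ // l ≠ i₀}) ∈ S →
          ∑ l ∈ S, e l * y l.1 = (d : L) *
            ∑ l ∈ insert i₀ (S.map (Function.Embedding.subtype _)), y l := by
        intro S hS
        have h3 : i₀ ∉ S.map (Function.Embedding.subtype _) := by
          intro h
          obtain ⟨l, -, hl⟩ := Finset.mem_map.1 h
          exact l.2 hl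
        rw [Finset.sum_insert h3, Finset.sum_map, ← Finset.add_sum_erase _ _ hS,
          ← Finset.add_sum_erase S _ hS, mul_add, mul_add, Finset.mul_sum]
        have h4 : ∑ l ∈ S.erase ⟨j₀, hij.symm⟩, e l * y l.1 =
            ∑ l ∈ S.erase ⟨j₀, hij.symm⟩,
              (d : L) * y ((Function.Embedding.subtype fun l => l ≠ i₀) l) := by
          refine Finset.sum_congr rfl fun l hl => ?_
          have h2 : l.1 ≠ j₀ := by
            intro h
            exact (Finset.mem_erase.1 hl).1 (Subtype.ext h)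
          simp [e, h2]
        rw [h4, hr]
        simp only [e, if_true, Function.Embedding.subtype_apply]
        ring
      refine ⟨fun l => (heint l).mul (hy.1 _), fun l => mul_ne_zero (he0 l) (hy.2.1 _),
        fun l => hA' _ _ (hy.2.2.1 _), ?_, fun S hS hSu => ?_⟩
      · rw [hsum2 _ (Finset.mem_univ _)]
        have : insert i₀ ((Finset.univ : Finset {l : κ // l ≠ i₀}).map
            (Function.Embedding.subtype _)) = Finset.univ := by
          ext l
          simp only [Finset.mem_insert, Finset.mem_map, Finset.mem_univ, true_and, iff_true]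
          by_cases hl : l = i₀
          · exact Or.inl hl
          · exact Or.inr ⟨⟨l, hl⟩, rfl⟩
        rw [this, hy.2.2.2.1, mul_zero]
      · by_cases hS0 : (⟨j₀, hij.symm⟩ : {l : κ // l ≠ i₀}) ∈ S
        · rw [hsum2 _ hS0]
          refine mul_ne_zero hd0' (hy.2.2.2.2 _ ⟨i₀, Finset.mem_insert_self _ _⟩ ?_)
          intro h
          apply hSu
          ext l
          simp only [Finset.mem_univ, iff_true]
          have h2 : l.1 ∈ insert i₀ (S.map (Function.Embedding.subtype _)) := by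
            rw [h]; exact Finset.mem_univ _
          rcases Finset.mem_insert.1 h2 with h2 | h2
          · exact absurd h2 l.2
          · obtain ⟨m, hm, hml⟩ := Finset.mem_map.1 h2
            have : m = l := Subtype.ext hml
            rwa [← this]
        · rw [hsum1 _ hS0]
          refine mul_ne_zero hd0' (hy.2.2.2.2 _ hS.map ?_)
          intro h
          have h2 : i₀ ∈ S.map (Function.Embedding.subtype _) := by
            rw [h]; exact Finset.mem_univ _
          obtain ⟨l, -, hl⟩ := Finset.mem_map.1 h2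
          exact l.2 hl
    obtain ⟨R, hR, h1⟩ := h1
    refine ⟨R ∪ (fun r => ρ * r) '' R ∪ (fun r => r * ρ⁻¹) '' R ∪ {1},
      ((hR.union (hR.image _)).union (hR.image _)).union (Set.finite_singleton _), ?_⟩
    rintro y ⟨hy, hr⟩ i j
    have hj0 := hy.2.1 j₀
    have hi0 := hy.2.1 i₀
    have hyj := hy.2.1 j
    have hyi := hy.2.1 i
    have h2 : ∀ l m : {l : κ // l ≠ i₀}, y l.1 / y m.1 ∈ R := fun l m =>
      h1 _ ⟨y, ⟨hy, hr⟩, rfl⟩ l m
    have hρ0 : ρ ≠ 0 := by rw [← hr]; exact div_ne_zero hi0 hj0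
    by_cases hi : i = i₀
    · by_cases hj : j = i₀
      · refine Or.inr ?_
        rw [hi, hj, div_self hi0]
        rfl
      · refine Or.inl (Or.inl (Or.inr ⟨y j₀ / y j, h2 ⟨j₀, hij.symm⟩ ⟨j, hj⟩, ?_⟩))
        rw [← hr, hi]
        field_simp
    · by_cases hj : j = i₀
      · refine Or.inl (Or.inr ⟨y i / y j₀, h2 ⟨i, hi⟩ ⟨j₀, hij.symm⟩, ?_⟩)
        rw [← hr, hj]
        field_simp
      · exact Or.inl (Or.inl (Or.inl (h2 ⟨i, hi⟩ ⟨j, hj⟩)))

/-- reindexing -/
theorem finRat_equiv {κ κ' : Type} [Fintype κ] [Fintype κ'] (σ : κ ≃ κ') (A : ℝ)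
    (h : FinRat (Fam L κ' A)) : FinRat (Fam L κ A) := by
  classical
  obtain ⟨R, hR, h⟩ := h
  refine ⟨R, hR, fun y hy i j => ?_⟩
  have h1 : (fun l => y (σ.symm l)) ∈ Fam L κ' A := by
    refine ⟨fun l => hy.1 _, fun l => hy.2.1 _, fun l => hy.2.2.1 _, ?_, fun S hS hSu => ?_⟩
    · rw [← hy.2.2.2.1]
      exact Equiv.sum_comp σ.symm y
    · have h2 : ∑ l ∈ S, y (σ.symm l) = ∑ l ∈ S.map σ.symm.toEmbedding, y l := by
        rw [Finset.sum_map]; rfl
      rw [h2]
      refine hy.2.2.2.2 _ hS.map fun h3 => hSu ?_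
      ext l
      simp only [Finset.mem_univ, iff_true]
      have h4 : σ.symm l ∈ S.map σ.symm.toEmbedding := by rw [h3]; exact Finset.mem_univ _
      obtain ⟨m, hm, hml⟩ := Finset.mem_map.1 h4
      have : m = l := σ.symm.injective hml
      rwa [← this]
  simpa using h _ h1 (σ i) (σ j)

theorem ueq_all (hHYP : T_HYP.{u}) (k : ℕ) : UEk L k := by
  classical
  induction' k using Nat.strong_induction_on with k ih
  intro κ _ hκ A
  rcases Nat.lt_or_ge k 3 with hk | hk
  · refine ⟨{1, -1}, (Set.finite_singleton _).insert _, fun y hy i j => ?_⟩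
    by_cases hij : i = j
    · left
      rw [hij, div_self (hy.2.1 j)]
    · right
      have h1 : (Finset.univ : Finset κ) = {i, j} := by
        symm
        rw [← Finset.card_eq_iff_eq_univ, Finset.card_pair hij]
        have : ({i, j} : Finset κ).card ≤ Fintype.card κ := Finset.card_le_univ _
        rw [Finset.card_pair hij] at this
        omega
      have h2 := hy.2.2.2.1
      rw [h1, Finset.sum_pair hij] at h2
      rw [Set.mem_singleton_iff, div_eq_iff (hy.2.1 j)]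
      linear_combination h2
  · obtain ⟨n, rfl⟩ : ∃ n, k = n + 1 := ⟨k - 1, by omega⟩
    have σ : κ ≃ Fin (n + 1) := Fintype.equivFinOfCardEq hκ
    refine finRat_equiv σ A ?_
    obtain ⟨R, hR, hR1⟩ := ueq_step1 hHYP (by omega : 2 ≤ n) A (Nat.lt_succ_self n) ih
    have h1 : ∀ p : Fin (n + 1) × Fin (n + 1), FinRat (⋃ ρ ∈ R,
        {y | y ∈ Fam L (Fin (n + 1)) A ∧ p.1 ≠ p.2 ∧ y p.1 / y p.2 = ρ}) := by
      intro p
      refine finRat_biUnion hR fun ρ _ => ?_
      by_cases hp : p.1 = p.2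
      · refine ⟨∅, Set.finite_empty, fun y hy => absurd hp hy.2.1⟩
      · refine (ueq_step2 (by simp) (by omega) A (ih n (Nat.lt_succ_self n)) p.1 p.2 hp ρ).mono ?_
        rintro y ⟨h1, -, h2⟩
        exact ⟨h1, h2⟩
    refine (finRat_biUnion (Set.finite_univ (α := Fin (n + 1) × Fin (n + 1)))
      fun p _ => h1 p).mono ?_
    intro y hy
    obtain ⟨i, j, hij, hr⟩ := hR1 y hy
    simp only [Set.mem_iUnion]
    exact ⟨(i, j), Set.mem_univ _, y i / y j, hr, hy, hij, rfl⟩

end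

theorem UEQ (hHYP : T_HYP.{u}) : T_UEQ.{u} := by
  intro L _ _ κ _ A
  obtain ⟨R, hR, h⟩ := ueq_all (L := L) hHYP _ κ rfl A
  exact ⟨R, hR, fun y h1 h2 h3 h4 h5 => h y ⟨h1, h2, h3, h4, h5⟩⟩

end Pool.Agent.H21.UE
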