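import Pool.Agent.H21.UE.Defs

/-! # Sums of units (MP_c80192_nt), module UNI: balancing by a unit -/

open NumberField NumberField.Units NumberField.Units.dirichletUnitTheorem NumberField.InfinitePlace

namespace Pool.Agent.H21.UE

universe u

open scoped Classical in
theorem uni_lattice (L : Type u) [Field L] [NumberField L] : ∃ C : ℝ, 0 ≤ C ∧
    ∀ y : logSpace L, ∃ u : (𝓞 L)ˣ, ∀ w,
      |y w - logEmbedding L (Additive.ofMul u) w| ≤ C := by
  let b := (basisUnitLattice L).ofZLatticeBasis ℝ (unitLattice L)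
  refine ⟨∑ i, ‖b i‖, Finset.sum_nonneg fun i _ => norm_nonneg _, fun y => ?_⟩
  have hmem : ((ZSpan.floor b y : logSpace L)) ∈ unitLattice L := by
    have h1 : ((ZSpan.floor b y : logSpace L)) ∈ Submodule.span ℤ (Set.range b) :=
      (ZSpan.floor b y).2
    have h2 : Submodule.span ℤ (Set.range b) = unitLattice L :=
      (basisUnitLattice L).ofZLatticeBasis_span ℝ
    exact h2.le h1
  obtain ⟨a, -, ha⟩ := Submodule.mem_map.1 hmem
  refine ⟨a.toMul, fun w => ?_⟩
  have h2 := ZSpan.norm_fract_le b y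
  rw [ZSpan.fract_apply] at h2
  have h3 := (norm_le_pi_norm (y - (ZSpan.floor b y : logSpace L)) w).trans h2
  rw [← ha] at h3
  simpa [Real.norm_eq_abs] using h3

theorem UNI : T_UNI.{u} := by
  classical
  intro L _ _
  obtain ⟨C, hC0, hC⟩ := uni_lattice L
  set N : ℝ := (Fintype.card (InfinitePlace L) : ℝ) with hN
  refine ⟨Real.exp ((N + 1) * C), Real.exp_pos _, fun t ht => ?_⟩
  have hd : (0 : ℝ) < Module.finrank ℚ L := by exact_mod_cast Module.finrank_pos
  set S : ℝ := ∑ v : InfinitePlace L, (v.mult : ℝ) * Real.log (t v) with hS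
  set ℓ : ℝ := S / Module.finrank ℚ L with hℓ
  have hmult : ∑ v : InfinitePlace L, (v.mult : ℝ) = Module.finrank ℚ L := by
    exact_mod_cast sum_mult_eq
  have hsum0 : ∑ v : InfinitePlace L, (v.mult : ℝ) * (ℓ - Real.log (t v)) = 0 := by
    have : ∀ v : InfinitePlace L, (v.mult : ℝ) * (ℓ - Real.log (t v)) =
      (v.mult : ℝ) * ℓ - (v.mult : ℝ) * Real.log (t v) := fun v => by ring
    rw [Finset.sum_congr rfl fun v _ => this v, Finset.sum_sub_distrib, ← Finset.sum_mul, hmult,
      ← hS, hℓ]
    field_simp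
    ring
  obtain ⟨u, hu⟩ := hC fun w => (w.1.mult : ℝ) * (ℓ - Real.log (t w.1))
  have hupos : ∀ v : InfinitePlace L, 0 < v (u : L) := fun v => pos_at_place u v
  -- key: |mult (ℓ - log t) - mult log |u|| ≤ N * C
  have hkey : ∀ v : InfinitePlace L,
      |(v.mult : ℝ) * (ℓ - Real.log (t v)) - v.mult * Real.log (v (u : L))| ≤ (N + 1) * C := by
    intro v
    by_cases hv : v = w₀
    · subst hv
      have hs := sum_mult_mul_log u
      have h1 : ∑ v : InfinitePlace L, ((v.mult : ℝ) * (ℓ - Real.log (t v)) -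
          v.mult * Real.log (v (u : L))) = 0 := by
        rw [Finset.sum_sub_distrib, hsum0, hs, sub_zero]
      rw [Fintype.sum_eq_add_sum_subtype_ne _ w₀] at h1
      have h2 : ((w₀ : InfinitePlace L).mult : ℝ) * (ℓ - Real.log (t w₀)) -
          (w₀ : InfinitePlace L).mult * Real.log ((w₀ : InfinitePlace L) (u : L)) =
          -∑ w : {w : InfinitePlace L // w ≠ w₀}, ((w.1.mult : ℝ) * (ℓ - Real.log (t w.1)) -
          w.1.mult * Real.log (w.1 (u : L))) := by linarith
      rw [h2, abs_neg]
      refine (Finset.abs_sum_le_sum_abs _ _).trans ?_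
      have h3 : ∀ w : {w : InfinitePlace L // w ≠ w₀}, |(w.1.mult : ℝ) * (ℓ - Real.log (t w.1)) -
          w.1.mult * Real.log (w.1 (u : L))| ≤ C := fun w => by
        have := hu w
        rwa [logEmbedding_component] at this
      refine (Finset.sum_le_sum fun w _ => h3 w).trans ?_
      rw [Finset.sum_const, nsmul_eq_mul]
      have h4 : ((Finset.univ : Finset {w : InfinitePlace L // w ≠ w₀}).card : ℝ) ≤ N := by
        rw [hN, Finset.card_univ]
        exact_mod_cast Fintype.card_subtype_le _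
      nlinarith
    · have := hu ⟨v, hv⟩
      rw [logEmbedding_component] at this
      have hNn : 0 ≤ N := by positivity
      nlinarith
  have hkey2 : ∀ v : InfinitePlace L,
      |ℓ - (Real.log (v (u : L)) + Real.log (t v))| ≤ (N + 1) * C := by
    intro v
    have hm : (1 : ℝ) ≤ v.mult := by exact_mod_cast one_le_mult
    have h1 := hkey v
    have h2 : (v.mult : ℝ) * (ℓ - Real.log (t v)) - v.mult * Real.log (v (u : L)) =
        v.mult * (ℓ - (Real.log (v (u : L)) + Real.log (t v))) := by ring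
    rw [h2, abs_mul, abs_of_nonneg (by linarith : (0 : ℝ) ≤ v.mult)] at h1
    refine le_trans ?_ h1
    exact le_mul_of_one_le_left (abs_nonneg _) hm
  refine ⟨u, Real.exp ℓ, Real.exp_pos _, ?_, fun v => ?_⟩
  · rw [← Real.exp_nat_mul, hℓ, mul_div_cancel₀ _ hd.ne', hS, Real.exp_sum]
    refine Finset.prod_congr rfl fun v _ => ?_
    rw [Real.exp_nat_mul, Real.exp_log (ht v)]
  · have h1 := abs_le.1 (hkey2 v)
    have h2 : v (u : L) * t v = Real.exp (Real.log (v (u : L)) + Real.log (t v)) := by
      rw [Real.exp_add, Real.exp_log (hupos v), Real.exp_log (ht v)]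
    rw [h2, ← Real.exp_neg, ← Real.exp_add, ← Real.exp_add]
    exact ⟨Real.exp_le_exp.2 (by linarith), Real.exp_le_exp.2 (by linarith)⟩

end Pool.Agent.H21.UE
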